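import Pool.Agent.H4.Prim

set_option autoImplicit false

namespace Pool.Agent.Results.MP_150040_al.NoSubdirect

open Pool.Agent.H4.Prim

/-- There is a right primitive ring `R` (even with an identity) such that every set of two-sided
ideals of `R` with zero intersection contains an ideal `J` for which `R / J` is not both right
primitive and subdirectly indecomposable. -/
theorem result :
    ∃ (R : Type) (_ : Ring R), RightPrimitive R ∧
      ∀ 𝒥 : Set (TwoSidedIdeal R), sInf 𝒥 = ⊥ →
        ∃ J ∈ 𝒥, ¬ (RightPrimitive J.ringCon.Quotient ∧
          SubdirectlyIndecomposable J.ringCon.Quotient) :=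
  Pool.Agent.H4.Prim.main

end Pool.Agent.Results.MP_150040_al.NoSubdirect
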